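import Pool.Agent.Lib.MP_626926_al.Main

set_option autoImplicit false

universe u v

/-- Answer (yes) to Q1 of MP_626926_al. Let `X` be a countably infinite set with its discrete
topology, and let `L` be (a copy of) the lattice `M_{2^ω}`: a bounded lattice whose elements other
than `⊥` and `⊤` form an antichain of cardinality `2^ω`. Then there is an injective map from `L` to
the set of local monoids on `X` (subsets of `X → X` that contain the identity, are closed under
composition, and are closed for the product topology), ordered by inclusion, which preserves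
binary meets (greatest lower bounds) and binary joins (least upper bounds). -/
theorem Pool.Agent.Results.MP_626926_al.MonEmbedding.result
    (X : Type u) [Countable X] [Infinite X] [TopologicalSpace X] [DiscreteTopology X]
    (L : Type v) [Lattice L] [BoundedOrder L]
    (hanti : IsAntichain (· ≤ ·) {x : L | x ≠ ⊥ ∧ x ≠ ⊤})
    (hcard : Cardinal.mk {x : L // x ≠ ⊥ ∧ x ≠ ⊤} = Cardinal.continuum) :
    ∃ f : L → {M : Set (X → X) // id ∈ M ∧ (∀ g ∈ M, ∀ h ∈ M, g ∘ h ∈ M) ∧ IsClosed M},
      Function.Injective f ∧
      ∀ x y : L, IsGLB {f x, f y} (f (x ⊓ y)) ∧ IsLUB {f x, f y} (f (x ⊔ y)) :=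
  Pool.Agent.Lib.MP_626926_al.monoid_embedding X L hanti hcard
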